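import Pool.Agent.W670.LL.Stm

set_option autoImplicit false

/-! The degree form on the group generated by the points `P` and `S`. -/

namespace Pool.Agent.W227.LL

open Pool.Agent.W670.LL WeierstrassCurve Polynomial

/-! ## degrees -/

theorem Hr_div {k : Type} [Field k] (p q : k[X]) (hp : p ≠ 0) (hq : q ≠ 0) (h : IsCoprime p q) :
    Hr (algebraMap k[X] (RatFunc k) p / algebraMap k[X] (RatFunc k) q) =
      max p.natDegree q.natDegree := by
  set f : RatFunc k := algebraMap k[X] (RatFunc k) p / algebraMap k[X] (RatFunc k) q with hf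
  have h1 : f.num ∣ p := RatFunc.num_div_dvd p hq
  have h2 : f.denom ∣ q := RatFunc.denom_div_dvd p q
  have hd0 : f.denom ≠ 0 := RatFunc.denom_ne_zero f
  have h3 : f.num * q = p * f.denom := by
    have h4 := RatFunc.num_div_denom f
    rw [hf] at h4
    have e1 : algebraMap k[X] (RatFunc k) q ≠ 0 := RatFunc.algebraMap_ne_zero hq
    have e2 : algebraMap k[X] (RatFunc k) f.denom ≠ 0 := RatFunc.algebraMap_ne_zero hd0
    rw [← hf] at h4
    have h5 : algebraMap k[X] (RatFunc k) f.num / algebraMap k[X] (RatFunc k) f.denom =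
        algebraMap k[X] (RatFunc k) p / algebraMap k[X] (RatFunc k) q := by rw [h4, hf]
    rw [div_eq_div_iff e2 e1, ← map_mul, ← map_mul] at h5
    exact RatFunc.algebraMap_injective k h5
  have h4 : p ∣ f.num := by
    have : p ∣ f.num * q := ⟨f.denom, h3⟩
    exact h.dvd_of_dvd_mul_right this
  have h5 : q ∣ f.denom := by
    have : q ∣ p * f.denom := ⟨f.num, by rw [← h3, mul_comm]⟩
    exact h.symm.dvd_of_dvd_mul_left this
  have hn0 : f.num ≠ 0 := by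
    intro h0
    rw [h0, zero_mul] at h3
    exact (mul_ne_zero hp hd0) h3.symm
  have e1 : f.num.natDegree = p.natDegree :=
    le_antisymm (natDegree_le_of_dvd h1 hp) (natDegree_le_of_dvd h4 hn0)
  have e2 : f.denom.natDegree = q.natDegree :=
    le_antisymm (natDegree_le_of_dvd h2 hq) (natDegree_le_of_dvd h5 hd0)
  unfold Hr
  rw [e1, e2]

theorem cop_lin {k : Type} [Field k] (a : k) (f : k[X]) (h : f.eval a ≠ 0) :
    IsCoprime (X - C a) f := by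
  rw [(irreducible_X_sub_C a).coprime_iff_not_dvd, dvd_iff_isRoot]
  exact h

/-! ## quadratic forms -/

theorem quad_line {A : Type*} [AddCommGroup A] (q : A → ℤ)
    (h : ∀ a b, q (a + b) + q (a - b) = 2 * q a + 2 * q b) (a b : A) (n : ℤ) :
    q (a + n • b) = q a + n * (q (a + b) - q a - q b) + n ^ 2 * q b := by
  have step : ∀ n : ℤ, q (a + (n + 1) • b) + q (a + (n - 1) • b) = 2 * q (a + n • b) + 2 * q b := by
    intro n
    have h1 := h (a + n • b) b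
    have e1 : a + n • b + b = a + (n + 1) • b := by rw [add_smul, one_smul, add_assoc]
    have e2 : a + n • b - b = a + (n - 1) • b := by rw [sub_smul, one_smul, add_sub_assoc]
    rw [e1, e2] at h1
    exact h1
  have key : ∀ n : ℕ, (q (a + (n : ℤ) • b) = q a + n * (q (a + b) - q a - q b) + n ^ 2 * q b) ∧
      (q (a + ((n : ℤ) + 1) • b) =
        q a + (n + 1) * (q (a + b) - q a - q b) + (n + 1) ^ 2 * q b) := by
    intro n
    induction n with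
    | zero => exact ⟨by simp, by simp; ring⟩
    | succ n ih =>
      obtain ⟨i1, i2⟩ := ih
      have h1 := step ((n : ℤ) + 1)
      have e1 : ((n : ℤ) + 1 - 1) = n := by ring
      rw [e1] at h1
      push_cast
      refine ⟨i2, ?_⟩
      rw [i1, i2] at h1
      linarith
  have key' : ∀ n : ℕ, (q (a + (-(n : ℤ)) • b) =
        q a + (-(n : ℤ)) * (q (a + b) - q a - q b) + (-(n : ℤ)) ^ 2 * q b) ∧
      (q (a + (-(n : ℤ) - 1) • b) =
        q a + (-(n : ℤ) - 1) * (q (a + b) - q a - q b) + (-(n : ℤ) - 1) ^ 2 * q b) := by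
    intro n
    induction n with
    | zero =>
      refine ⟨by simp, ?_⟩
      have h1 := h a b
      have e1 : a + (-((0 : ℕ) : ℤ) - 1) • b = a - b := by simp [sub_eq_add_neg]
      rw [e1]
      push_cast
      linarith
    | succ n ih =>
      obtain ⟨i1, i2⟩ := ih
      have h1 := step (-(n : ℤ) - 1)
      have e1 : (-(n : ℤ) - 1 + 1) = -n := by ring
      rw [e1] at h1
      push_cast
      have e2 : (-((n : ℤ) + 1)) = -(n : ℤ) - 1 := by ring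
      rw [e2]
      refine ⟨i2, ?_⟩
      rw [i1, i2] at h1
      linarith
  rcases Int.eq_nat_or_neg n with ⟨k, rfl | rfl⟩
  · exact (key k).1
  · exact (key' k).1

theorem quad_form {A : Type*} [AddCommGroup A] (q : A → ℤ) (h0 : q 0 = 0)
    (h : ∀ a b, q (a + b) + q (a - b) = 2 * q a + 2 * q b) (P S : A) (h1 : q P = 1) (h3 : q S = 3)
    (h4 : q (P + S) = 4) (m n : ℤ) : q (m • P + n • S) = m ^ 2 + 3 * n ^ 2 := by
  have e1 := quad_line q h (m • P) S n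
  have e2 := quad_line q h 0 P m
  have e3 := quad_line q h S P m
  simp only [zero_add, h0, h1] at e2
  rw [add_comm S P, h4, h3, h1, add_comm S (m • P)] at e3
  rw [e1, e3, e2, h3]
  ring

/-! ## the points -/

section
variable {k : Type} [Field k]

theorem lam_eq : lam k = algebraMap k[X] (RatFunc k) (X ^ 3 + 6 * X ^ 2 - 3 * X) := by
  unfold lam
  rw [map_sub, map_add, map_mul, map_mul, map_pow, map_pow, RatFunc.algebraMap_X, map_ofNat, map_ofNat]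

theorem lam_ne : lam k ≠ 0 := by
  rw [lam_eq]
  apply RatFunc.algebraMap_ne_zero
  intro h
  have h1 := congrArg (fun p : k[X] => p.coeff 3) h
  simp [coeff_X, coeff_ofNat_mul] at h1

theorem num_ne {n : ℕ} [n.AtLeastTwo] (h : (OfNat.ofNat n : k) ≠ 0) :
    (OfNat.ofNat n : RatFunc k) ≠ 0 := by
  have h1 : (OfNat.ofNat n : RatFunc k) = algebraMap k (RatFunc k) (OfNat.ofNat n) :=
    (map_ofNat _ n).symm
  rw [h1]
  exact (map_ne_zero_iff _ (algebraMap k (RatFunc k)).injective).2 h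

theorem X_sub_ne (a : k) : (RatFunc.X : RatFunc k) - RatFunc.C a ≠ 0 := by
  have : (RatFunc.X : RatFunc k) - RatFunc.C a = algebraMap k[X] (RatFunc k) (X - C a) := by
    rw [map_sub, RatFunc.algebraMap_X, RatFunc.algebraMap_C]
  rw [this]
  exact RatFunc.algebraMap_ne_zero (X_sub_C_ne_zero a)

theorem X_sub_one_ne : (RatFunc.X : RatFunc k) - 1 ≠ 0 := by
  have := X_sub_ne (1 : k)
  rwa [map_one] at this

theorem isPt_of [DecidableEq (RatFunc k)] (h2 : (2 : k) ≠ 0) (h3 : (3 : k) ≠ 0) (x y : RatFunc k)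
    (h : lam k * y ^ 2 = x ^ 3 + 6 * x ^ 2 - 3 * x) : ∃ P : Gp k, IsPt P x y := by
  have hn : (Cv (6 * lam k) (-3 * lam k ^ 2)).Nonsingular (lam k * x) (lam k ^ 2 * y) := by
    apply nons (num_ne h2)
    · exact mul_ne_zero (neg_ne_zero.2 (num_ne h3)) (pow_ne_zero 2 lam_ne)
    · have e : (6 * lam k) ^ 2 - 4 * (-3 * lam k ^ 2) = 2 ^ 4 * 3 * lam k ^ 2 := by ring
      rw [e]
      exact mul_ne_zero (mul_ne_zero (pow_ne_zero 4 (num_ne h2)) (num_ne h3)) (pow_ne_zero 2 lam_ne)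
    · linear_combination (lam k) ^ 3 * h
  exact ⟨_, hn, rfl⟩

theorem sx_sy_eq (h3 : (3 : k) ≠ 0) (ρ : k) (hρ : ρ ^ 2 = -3) :
    lam k * sy (RatFunc.C ρ) (RatFunc.X : RatFunc k) 1 ^ 2 =
      sx (RatFunc.X : RatFunc k) ^ 3 + 6 * sx (RatFunc.X : RatFunc k) ^ 2 -
        3 * sx (RatFunc.X : RatFunc k) := by
  have h3' : (3 : RatFunc k) ≠ 0 := num_ne h3
  have hr : (RatFunc.C ρ : RatFunc k) ^ 2 = -3 := by
    rw [← map_pow, hρ, map_neg, map_ofNat]
  have hr0 : (RatFunc.C ρ : RatFunc k) ≠ 0 := by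
    intro h0
    rw [h0] at hr
    apply h3'
    linear_combination hr
  have hx1 := X_sub_one_ne (k := k)
  obtain ⟨x, hx⟩ : ∃ x : RatFunc k, x = RatFunc.X := ⟨_, rfl⟩
  obtain ⟨r, hrr⟩ : ∃ r : RatFunc k, r = RatFunc.C ρ := ⟨_, rfl⟩
  rw [← hx] at hx1
  unfold lam sx sy
  rw [← hrr] at hr hr0 ⊢
  rw [← hx]
  have e1 : (-(1 * (x + 3) * (x ^ 2 - 6 * x - 3)) / (3 * r * (x - 1) ^ 3)) ^ 2 =
      ((x + 3) * (x ^ 2 - 6 * x - 3)) ^ 2 / (-27 * (x - 1) ^ 6) := by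
    rw [div_pow]
    congr 1
    · ring
    · linear_combination (9 * (x - 1) ^ 6) * hr
  rw [e1]
  have h27 : (-27 : RatFunc k) * (x - 1) ^ 6 ≠ 0 := by
    apply mul_ne_zero _ (pow_ne_zero 6 hx1)
    have : (-27 : RatFunc k) = -(3 ^ 3) := by norm_num
    rw [this]
    exact neg_ne_zero.2 (pow_ne_zero 3 h3')
  have e2 : (-(x * (x + 3) ^ 2) / (3 * (x - 1) ^ 2)) ^ 3 + 6 * (-(x * (x + 3) ^ 2) / (3 * (x - 1) ^ 2)) ^ 2 -
      3 * (-(x * (x + 3) ^ 2) / (3 * (x - 1) ^ 2)) =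
      ((x * (x + 3) ^ 2) ^ 3 - 18 * (x - 1) ^ 2 * (x * (x + 3) ^ 2) ^ 2 -
        27 * (x - 1) ^ 4 * (x * (x + 3) ^ 2)) / (-27 * (x - 1) ^ 6) := by
    rw [eq_div_iff h27]
    field_simp
    ring
  rw [e2, ← mul_div_assoc]
  congr 1
  ring

theorem pts : S_PTS := by
  intro k _ h2 h3 ρ hρ
  classical
  refine ⟨isPt_of h2 h3 _ _ ?_, isPt_of h2 h3 _ _ (sx_sy_eq h3 ρ hρ)⟩
  unfold lam
  ring

/-! ## the degrees of `P`, `S`, `P + S` -/

theorem HH_of {R : Gp k} {x y : RatFunc k} (h : IsPt R x y) : HH R = Hr x := by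
  obtain ⟨h1, rfl⟩ := h
  show Hr (lam k * x / lam k) = Hr x
  rw [mul_div_cancel_left₀ _ lam_ne]

theorem Hr_X : Hr (RatFunc.X : RatFunc k) = 1 := by
  have h := Hr_div (X : k[X]) 1 X_ne_zero one_ne_zero isCoprime_one_right
  rw [map_one, div_one, RatFunc.algebraMap_X] at h
  rw [h]
  simp

theorem natDegree_C_mul_ne {a : k} (ha : a ≠ 0) (f : k[X]) : (C a * f).natDegree = f.natDegree :=
  natDegree_C_mul ha

theorem Hr_sx (h2 : (2 : k) ≠ 0) (h3 : (3 : k) ≠ 0) : Hr (sx (RatFunc.X : RatFunc k)) = 3 := by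
  have e1 : sx (RatFunc.X : RatFunc k) = algebraMap k[X] (RatFunc k) (C (-1) * (X * (X - C (-3)) ^ 2)) /
      algebraMap k[X] (RatFunc k) (C 3 * (X - C 1) ^ 2) := by
    unfold sx
    have a1 : algebraMap k[X] (RatFunc k) (C (-1) * (X * (X - C (-3)) ^ 2)) =
        -(RatFunc.X * (RatFunc.X + 3) ^ 2) := by
      simp only [map_mul, map_pow, map_sub, RatFunc.algebraMap_X, RatFunc.algebraMap_C, map_neg,
        map_one, map_ofNat]
      ring
    have a2 : algebraMap k[X] (RatFunc k) (C 3 * (X - C 1) ^ 2) = 3 * (RatFunc.X - 1) ^ 2 := by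
      simp only [map_mul, map_pow, map_sub, RatFunc.algebraMap_X, RatFunc.algebraMap_C, map_one,
        map_ofNat]
    rw [a1, a2]
  have hm1 : (-1 : k) ≠ 0 := neg_ne_zero.2 one_ne_zero
  have d1 : (C (-1 : k) * (X * (X - C (-3)) ^ 2)).natDegree = 3 := by
    rw [natDegree_C_mul hm1, natDegree_mul X_ne_zero (pow_ne_zero 2 (X_sub_C_ne_zero _)), natDegree_X,
      natDegree_pow, natDegree_X_sub_C]
  have d2 : (C (3 : k) * (X - C 1) ^ 2).natDegree = 2 := by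
    rw [natDegree_C_mul h3, natDegree_pow, natDegree_X_sub_C]
  have hcop : IsCoprime (C (-1 : k) * (X * (X - C (-3)) ^ 2)) (C (3 : k) * (X - C 1) ^ 2) := by
    rw [isCoprime_mul_unit_left_left (isUnit_C.2 (isUnit_iff_ne_zero.2 hm1)),
      isCoprime_mul_unit_left_right (isUnit_C.2 (isUnit_iff_ne_zero.2 h3))]
    apply IsCoprime.pow_right
    apply IsCoprime.symm
    apply cop_lin
    simp only [eval_mul, eval_X, eval_pow, eval_sub, eval_C]
    have : (1 : k) * (1 - -3) ^ 2 = 2 ^ 4 := by ring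
    rw [this]
    exact pow_ne_zero 4 h2
  rw [e1, Hr_div _ _ _ _ hcop, d1, d2]
  · rfl
  · exact mul_ne_zero (C_ne_zero.2 hm1) (mul_ne_zero X_ne_zero (pow_ne_zero 2 (X_sub_C_ne_zero _)))
  · exact mul_ne_zero (C_ne_zero.2 h3) (pow_ne_zero 2 (X_sub_C_ne_zero _))

theorem Hr_sum (h2 : (2 : k) ≠ 0) (h3 : (3 : k) ≠ 0) (ρ : k) (hρ : ρ ^ 2 = -3) :
    Hr (((RatFunc.X : RatFunc k) ^ 2 + 6 * RatFunc.X - 3) * (RatFunc.X - RatFunc.C ρ) ^ 2 /
      ((2 * RatFunc.C ρ - 2) * RatFunc.X * (RatFunc.X + RatFunc.C ρ) ^ 2)) = 4 := by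
  have hρ0 : ρ ≠ 0 := by
    rintro rfl
    apply h3
    linear_combination hρ
  have hc : 2 * ρ - 2 ≠ 0 := by
    intro h
    have h4 : (2 : k) ^ 4 = 0 := by linear_combination (-(2 * ρ + 2)) * h + 4 * hρ
    exact pow_ne_zero 4 h2 h4
  have e1 : ((RatFunc.X : RatFunc k) ^ 2 + 6 * RatFunc.X - 3) * (RatFunc.X - RatFunc.C ρ) ^ 2 /
      ((2 * RatFunc.C ρ - 2) * RatFunc.X * (RatFunc.X + RatFunc.C ρ) ^ 2) =
      algebraMap k[X] (RatFunc k) ((X ^ 2 + 6 * X - 3) * (X - C ρ) ^ 2) /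
      algebraMap k[X] (RatFunc k) (C (2 * ρ - 2) * (X * (X - C (-ρ)) ^ 2)) := by
    have a1 : algebraMap k[X] (RatFunc k) ((X ^ 2 + 6 * X - 3) * (X - C ρ) ^ 2) =
        (RatFunc.X ^ 2 + 6 * RatFunc.X - 3) * (RatFunc.X - RatFunc.C ρ) ^ 2 := by
      simp only [map_mul, map_pow, map_sub, map_add, RatFunc.algebraMap_X, RatFunc.algebraMap_C,
        map_ofNat]
    have a2 : algebraMap k[X] (RatFunc k) (C (2 * ρ - 2) * (X * (X - C (-ρ)) ^ 2)) =
        (2 * RatFunc.C ρ - 2) * RatFunc.X * (RatFunc.X + RatFunc.C ρ) ^ 2 := by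
      simp only [map_mul, map_pow, map_sub, map_add, map_neg, RatFunc.algebraMap_X,
        RatFunc.algebraMap_C, map_ofNat]
      ring
    rw [a1, a2]
  have d0 : (X ^ 2 + 6 * X - 3 : k[X]).natDegree = 2 := by compute_degree!
  have n0 : (X ^ 2 + 6 * X - 3 : k[X]) ≠ 0 := by
    intro h
    rw [h] at d0
    simp at d0
  have d1 : ((X ^ 2 + 6 * X - 3) * (X - C ρ) ^ 2 : k[X]).natDegree = 4 := by
    rw [natDegree_mul n0 (pow_ne_zero 2 (X_sub_C_ne_zero _)), d0, natDegree_pow, natDegree_X_sub_C]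
  have d2 : (C (2 * ρ - 2) * (X * (X - C (-ρ)) ^ 2) : k[X]).natDegree = 3 := by
    rw [natDegree_C_mul hc, natDegree_mul X_ne_zero (pow_ne_zero 2 (X_sub_C_ne_zero _)), natDegree_X,
      natDegree_pow, natDegree_X_sub_C]
  have c1 : IsCoprime (X : k[X]) ((X ^ 2 + 6 * X - 3) * (X - C ρ) ^ 2) := by
    have h := cop_lin (0 : k) ((X ^ 2 + 6 * X - 3) * (X - C ρ) ^ 2) (by
      simp only [eval_mul, eval_sub, eval_add, eval_pow, eval_X, eval_C, eval_ofNat]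
      have : ((0 : k) ^ 2 + 6 * 0 - 3) * (0 - ρ) ^ 2 = -3 * ρ ^ 2 := by ring
      rw [this]
      exact mul_ne_zero (neg_ne_zero.2 h3) (pow_ne_zero 2 hρ0))
    rwa [map_zero, sub_zero] at h
  have c2 : IsCoprime (X - C (-ρ) : k[X]) ((X ^ 2 + 6 * X - 3) * (X - C ρ) ^ 2) := by
    apply cop_lin
    simp only [eval_mul, eval_sub, eval_add, eval_pow, eval_X, eval_C, eval_ofNat]
    have : ((-ρ) ^ 2 + 6 * -ρ - 3) * (-ρ - ρ) ^ 2 = 2 ^ 3 * 3 ^ 2 * (1 + ρ) := by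
      linear_combination (4 * ρ ^ 2 - 24 * ρ - 24) * hρ
    rw [this]
    apply mul_ne_zero (mul_ne_zero (pow_ne_zero 3 h2) (pow_ne_zero 2 h3))
    intro h
    have h4 : (2 : k) ^ 2 = 0 := by linear_combination (1 - ρ) * h + hρ
    exact pow_ne_zero 2 h2 h4
  have hcop : IsCoprime ((X ^ 2 + 6 * X - 3) * (X - C ρ) ^ 2 : k[X])
      (C (2 * ρ - 2) * (X * (X - C (-ρ)) ^ 2)) := by
    rw [isCoprime_mul_unit_left_right (isUnit_C.2 (isUnit_iff_ne_zero.2 hc))]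
    exact (c1.mul_left (c2.pow_left)).symm
  rw [e1, Hr_div _ _ _ _ hcop, d1, d2]
  · rfl
  · exact mul_ne_zero n0 (pow_ne_zero 2 (X_sub_C_ne_zero _))
  · exact mul_ne_zero (C_ne_zero.2 hc) (mul_ne_zero X_ne_zero (pow_ne_zero 2 (X_sub_C_ne_zero _)))

set_option maxHeartbeats 4000000 in
/-- the abscissa of `P + S` -/
theorem absc (x r : RatFunc k) (h2 : (2 : RatFunc k) ≠ 0) (h3 : (3 : RatFunc k) ≠ 0)
    (hr : r ^ 2 = -3) (hx : x ≠ 0) (hx1 : x - 1 ≠ 0) (hxr : x - r ≠ 0) (hxr' : x + r ≠ 0) :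
    (x ^ 3 + 6 * x ^ 2 - 3 * x) * ((1 - sy r x 1) / (x - sx x)) ^ 2 - 6 - x - sx x =
      (x ^ 2 + 6 * x - 3) * (x - r) ^ 2 / ((2 * r - 2) * x * (x + r) ^ 2) := by
  have hr0 : r ≠ 0 := by
    intro h0
    rw [h0] at hr
    apply h3
    linear_combination hr
  have hq : 4 * x ^ 2 + 12 ≠ 0 := by
    have : 4 * x ^ 2 + 12 = 2 ^ 2 * ((x - r) * (x + r)) := by linear_combination 4 * hr
    rw [this]
    exact mul_ne_zero (pow_ne_zero 2 h2) (mul_ne_zero hxr hxr')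
  have hc : 2 * r - 2 ≠ 0 := by
    intro h
    have h4 : (2 : RatFunc k) ^ 4 = 0 := by linear_combination (-(2 * r + 2)) * h + 4 * hr
    exact pow_ne_zero 4 h2 h4
  have e1 : 1 - sy r x 1 = (3 * r * (x - 1) ^ 3 + (x + 3) * (x ^ 2 - 6 * x - 3)) /
      (3 * r * (x - 1) ^ 3) := by
    unfold sy
    field_simp
    ring
  have e2 : x - sx x = x * (4 * x ^ 2 + 12) / (3 * (x - 1) ^ 2) := by
    unfold sx
    field_simp
    ring
  have e3 : (1 - sy r x 1) / (x - sx x) = (3 * r * (x - 1) ^ 3 + (x + 3) * (x ^ 2 - 6 * x - 3)) /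
      (r * (x - 1) * (x * (4 * x ^ 2 + 12))) := by
    rw [e1, e2, div_div_div_eq, div_eq_div_iff]
    · ring
    · exact mul_ne_zero (mul_ne_zero (mul_ne_zero h3 hr0) (pow_ne_zero 3 hx1)) (mul_ne_zero hx hq)
    · exact mul_ne_zero (mul_ne_zero hr0 hx1) (mul_ne_zero hx hq)
  have e4 : -6 - x - sx x = ((-6 - x) * 3 * (x - 1) ^ 2 + x * (x + 3) ^ 2) / (3 * (x - 1) ^ 2) := by
    unfold sx
    field_simp
    ring
  have e5 : (x ^ 3 + 6 * x ^ 2 - 3 * x) * ((1 - sy r x 1) / (x - sx x)) ^ 2 - 6 - x - sx x =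
      ((x ^ 3 + 6 * x ^ 2 - 3 * x) * (3 * r * (x - 1) ^ 3 + (x + 3) * (x ^ 2 - 6 * x - 3)) ^ 2) /
        (r ^ 2 * (x - 1) ^ 2 * (x ^ 2 * (4 * x ^ 2 + 12) ^ 2)) +
      ((-6 - x) * 3 * (x - 1) ^ 2 + x * (x + 3) ^ 2) / (3 * (x - 1) ^ 2) := by
    rw [← e4, e3]
    have : (x ^ 3 + 6 * x ^ 2 - 3 * x) * ((3 * r * (x - 1) ^ 3 + (x + 3) * (x ^ 2 - 6 * x - 3)) /
      (r * (x - 1) * (x * (4 * x ^ 2 + 12)))) ^ 2 =
      ((x ^ 3 + 6 * x ^ 2 - 3 * x) * (3 * r * (x - 1) ^ 3 + (x + 3) * (x ^ 2 - 6 * x - 3)) ^ 2) /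
        (r ^ 2 * (x - 1) ^ 2 * (x ^ 2 * (4 * x ^ 2 + 12) ^ 2)) := by
      rw [div_pow, mul_div_assoc]
      congr 1
      congr 1
      ring
    rw [this]
    ring
  rw [e5, div_add_div _ _ (by
    exact mul_ne_zero (mul_ne_zero (pow_ne_zero 2 hr0) (pow_ne_zero 2 hx1))
      (mul_ne_zero (pow_ne_zero 2 hx) (pow_ne_zero 2 hq))) (mul_ne_zero h3 (pow_ne_zero 2 hx1)),
    div_eq_div_iff]
  · linear_combination ((486 : RatFunc k) * x ^ 4 + (324 : RatFunc k) * x ^ 5 + (-3834 : RatFunc k) * x ^ 6 +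
      (-1296 : RatFunc k) * x ^ 7 + (7884 : RatFunc k) * x ^ 8 + (-936 : RatFunc k) * x ^ 9 +
      (-2628 : RatFunc k) * x ^ 10 + (-144 : RatFunc k) * x ^ 11 + (142 : RatFunc k) * x ^ 12 +
      (4 : RatFunc k) * x ^ 13 + (-2 : RatFunc k) * x ^ 14 + (972 : RatFunc k) * x ^ 3 * r +
      (486 : RatFunc k) * x ^ 4 * r + (-9504 : RatFunc k) * x ^ 5 * r +
      (2430 : RatFunc k) * x ^ 6 * r + (21960 : RatFunc k) * x ^ 7 * r +
      (-21780 : RatFunc k) * x ^ 8 * r + (5808 : RatFunc k) * x ^ 9 * r +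
      (12 : RatFunc k) * x ^ 10 * r + (-820 : RatFunc k) * x ^ 11 * r +
      (430 : RatFunc k) * x ^ 12 * r + (16 : RatFunc k) * x ^ 13 * r +
      (-10 : RatFunc k) * x ^ 14 * r + (486 : RatFunc k) * x ^ 2 * r ^ 2 +
      (-7506 : RatFunc k) * x ^ 4 * r ^ 2 + (8748 : RatFunc k) * x ^ 5 * r ^ 2 +
      (21420 : RatFunc k) * x ^ 6 * r ^ 2 + (-47664 : RatFunc k) * x ^ 7 * r ^ 2 +
      (35244 : RatFunc k) * x ^ 8 * r ^ 2 + (-16440 : RatFunc k) * x ^ 9 * r ^ 2 +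
      (5998 : RatFunc k) * x ^ 10 * r ^ 2 + (80 : RatFunc k) * x ^ 11 * r ^ 2 +
      (-346 : RatFunc k) * x ^ 12 * r ^ 2 + (-20 : RatFunc k) * x ^ 13 * r ^ 2 +
      (-162 : RatFunc k) * x ^ 2 * r ^ 3 + (-3564 : RatFunc k) * x ^ 3 * r ^ 3 +
      (15390 : RatFunc k) * x ^ 4 * r ^ 3 + (-16848 : RatFunc k) * x ^ 5 * r ^ 3 +
      (1980 : RatFunc k) * x ^ 6 * r ^ 3 + (6840 : RatFunc k) * x ^ 7 * r ^ 3 +
      (-6996 : RatFunc k) * x ^ 8 * r ^ 3 + (3504 : RatFunc k) * x ^ 9 * r ^ 3 +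
      (38 : RatFunc k) * x ^ 10 * r ^ 3 + (-172 : RatFunc k) * x ^ 11 * r ^ 3 +
      (-10 : RatFunc k) * x ^ 12 * r ^ 3) * hr
  · exact mul_ne_zero (mul_ne_zero (mul_ne_zero (pow_ne_zero 2 hr0) (pow_ne_zero 2 hx1))
      (mul_ne_zero (pow_ne_zero 2 hx) (pow_ne_zero 2 hq))) (mul_ne_zero h3 (pow_ne_zero 2 hx1))
  · exact mul_ne_zero (mul_ne_zero hc hx) (pow_ne_zero 2 hxr')

end

theorem deg (h : S_PAR) : S_DEG := by
  intro k _ _ h2 h3 ρ hρ P S hP hS m n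
  have h2' : (2 : RatFunc k) ≠ 0 := num_ne h2
  have h3' : (3 : RatFunc k) ≠ 0 := num_ne h3
  have qP : HH P = 1 := by rw [HH_of hP, Hr_X]
  have qS : HH S = 3 := by rw [HH_of hS, Hr_sx h2 h3]
  have hr : (RatFunc.C ρ : RatFunc k) ^ 2 = -3 := by
    rw [← map_pow, hρ, map_neg, map_ofNat]
  have hne : (RatFunc.X : RatFunc k) ≠ sx RatFunc.X := by
    intro he
    have h5 : Hr (RatFunc.X : RatFunc k) = Hr (sx (RatFunc.X : RatFunc k)) := by rw [← he]
    rw [Hr_X, Hr_sx h2 h3] at h5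
    omega
  have qPS : HH (P + S) = 4 := by
    obtain ⟨hP1, hP2⟩ := hP
    obtain ⟨hS1, hS2⟩ := hS
    have hx12 : lam k * RatFunc.X ≠ lam k * sx (RatFunc.X : RatFunc k) := fun he =>
      hne (mul_left_cancel₀ lam_ne he)
    have hd : (RatFunc.X : RatFunc k) - sx RatFunc.X ≠ 0 := sub_ne_zero.2 hne
    obtain ⟨h₃, hsum⟩ := add_mk hP1 hS1 hx12
      (lam k * ((1 - sy (RatFunc.C ρ) RatFunc.X 1) / (RatFunc.X - sx RatFunc.X)))
      _ _ (by field_simp) rfl rfl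
    rw [hP2, hS2, hsum]
    show Hr (_ / lam k) = 4
    have hx : (RatFunc.X : RatFunc k) ≠ 0 := RatFunc.X_ne_zero
    have hxr : (RatFunc.X : RatFunc k) - RatFunc.C ρ ≠ 0 := X_sub_ne ρ
    have hxr' : (RatFunc.X : RatFunc k) + RatFunc.C ρ ≠ 0 := by
      have := X_sub_ne (-ρ)
      rwa [map_neg, sub_neg_eq_add] at this
    have h5 := absc (RatFunc.X : RatFunc k) (RatFunc.C ρ) h2' h3' hr hx X_sub_one_ne hxr hxr'
    have h6 : ((lam k * ((1 - sy (RatFunc.C ρ) RatFunc.X 1) / (RatFunc.X - sx RatFunc.X))) ^ 2 -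
        6 * lam k - lam k * RatFunc.X - lam k * sx RatFunc.X) / lam k =
        (RatFunc.X ^ 3 + 6 * RatFunc.X ^ 2 - 3 * RatFunc.X) *
          ((1 - sy (RatFunc.C ρ) RatFunc.X 1) / (RatFunc.X - sx RatFunc.X)) ^ 2 - 6 - RatFunc.X -
          sx RatFunc.X := by
      rw [div_eq_iff lam_ne]
      have hl : lam k = RatFunc.X ^ 3 + 6 * RatFunc.X ^ 2 - 3 * RatFunc.X := rfl
      rw [hl]
      ring
    rw [h6, h5]
    exact Hr_sum h2 h3 ρ hρ
  have hq := quad_form (fun R : Gp k => (HH R : ℤ)) (by rfl) (by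
    intro a b
    have := h k h2 h3 a b
    show (HH (a + b) : ℤ) + HH (a - b) = 2 * HH a + 2 * HH b
    exact_mod_cast this) P S (by show (HH P : ℤ) = 1; rw [qP]; rfl)
    (by show (HH S : ℤ) = 3; rw [qS]; rfl) (by show (HH (P + S) : ℤ) = 4; rw [qPS]; rfl) m n
  exact hq

end Pool.Agent.W227.LL
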