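import Pool.Agent.W670.LL.Stm

set_option autoImplicit false

/-! Translation by a point of the kernel of the endomorphism. -/

namespace Pool.Agent.W227.LL

open Pool.Agent.W670.LL

set_option maxHeartbeats 4000000 in
theorem s2 : S_S2 := by
  intro K _ ρ h2 h3 hρ x y ν l x₃ y₃ hy hν hx hl hx₃ hy₃ hx31
  have hD : x - 1 ≠ 0 := sub_ne_zero.2 hx
  have hD3 : x₃ - 1 ≠ 0 := sub_ne_zero.2 hx31
  have hρ0 : ρ ≠ 0 := by
    rintro rfl
    apply h3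
    linear_combination hρ
  obtain ⟨m, hm⟩ : ∃ m, m = l ^ 2 := ⟨_, rfl⟩
  have hyl : y = ν + l * (x - 1) := by linear_combination -hl
  have hF : 2 * ν * l = x ^ 2 + 7 * x + 4 - m * (x - 1) := by
    apply mul_left_cancel₀ hD
    rw [hyl] at hy
    rw [hm]
    linear_combination hy - hν
  have hH : (x ^ 2 + 7 * x + 4 - m * (x - 1)) ^ 2 - 16 * m = 0 := by
    rw [← hF, hm]
    linear_combination 4 * l ^ 2 * hν
  have hT : 8 * l = (x ^ 2 + 7 * x + 4 - m * (x - 1)) * ν := by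
    rw [← hF]
    linear_combination (-2) * l * hν
  have hx3m : x₃ = m - 7 - x := by rw [hx₃, hm]; ring
  have hy3 : y₃ = -(ν + l * (x₃ - 1)) := by
    rw [hy₃, hyl]; ring
  have g1 : x₃ * (x₃ + 3) ^ 2 * (x - 1) ^ 2 = x * (x + 3) ^ 2 * (x₃ - 1) ^ 2 := by
    rw [hx3m]
    linear_combination (m - 2 * x - 7) * hH
  have g2 : y₃ * ((x₃ + 3) * (x₃ ^ 2 - 6 * x₃ - 3)) * (x - 1) ^ 3 =
      y * ((x + 3) * (x ^ 2 - 6 * x - 3)) * (x₃ - 1) ^ 3 := by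
    have h8 : (8 : K) ≠ 0 := by
      have : (8 : K) = 2 ^ 3 := by norm_num
      rw [this]
      exact pow_ne_zero 3 h2
    apply mul_left_cancel₀ h8
    rw [hy3, hyl, hx3m]
    linear_combination (-ν * (624 + 84 * x + 453 * x ^ 2 + 126 * x ^ 3 + 9 * x ^ 4 - 244 * m +
      142 * x * m - 153 * x ^ 2 * m - 32 * x ^ 3 * m - x ^ 4 * m + 29 * m ^ 2 - 36 * x * m ^ 2 +
      21 * x ^ 2 * m ^ 2 + 2 * x ^ 3 * m ^ 2 - m ^ 3 + 2 * x * m ^ 3 - x ^ 2 * m ^ 3)) * hH -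
      ((m - 7 - x - 1) * ((m - 7 - x + 3) * ((m - 7 - x) ^ 2 - 6 * (m - 7 - x) - 3)) * (x - 1) ^ 3 +
        (x - 1) * ((x + 3) * (x ^ 2 - 6 * x - 3)) * (m - 7 - x - 1) ^ 3) * hT
  constructor
  · unfold sx
    rw [div_eq_div_iff (mul_ne_zero h3 (pow_ne_zero 2 hD3)) (mul_ne_zero h3 (pow_ne_zero 2 hD))]
    linear_combination (-3) * g1
  · unfold sy
    rw [div_eq_div_iff (mul_ne_zero (mul_ne_zero h3 hρ0) (pow_ne_zero 3 hD3))
      (mul_ne_zero (mul_ne_zero h3 hρ0) (pow_ne_zero 3 hD))]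
    linear_combination (-3 * ρ) * g2

end Pool.Agent.W227.LL
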